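import Pool.Agent.Helper21.Assemble

/-!
# Complexes of toric manifolds with Picard number three are rigid

The statement is about complete nonsingular fans in `ℝ^n` with exactly `n + 3` rays; see
`Pool/Agent/Helper21/ToricDefs.lean` for the definitions.
-/

namespace Pool.Agent.Results.MP_6ffec3_gt.PicardThreeRigid

open Pool.Agent.Helper21.Toric

/-- For every `n` and every complete nonsingular fan in `ℝ^n` with `n + 3` rays, the simplicial
complex of the fan is rigid. -/
theorem result (n : ℕ) (Z : Fan n (n + 3)) : Rigid Z.faces :=
  rigid_add_three n Z

end Pool.Agent.Results.MP_6ffec3_gt.PicardThreeRigid
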