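import Pool.Agent.Helper22.BU.Main

/-!
# Rigidity of the complexes of point blow-ups of toric manifolds

See `Pool/Agent/Helper21/ToricDefs.lean` for `Fan`, `GradedIso`, `ComplexIso`, `Rigid` and
`Pool/Agent/Helper22/BU/Defs.lean` for `old`, `stack`, `IsFacet`, `nbr`, `deg`.
-/

namespace Pool.Agent.Results.MP_6ffec3_gt.PointBlowUps

open Pool.Agent.Helper21.Toric Pool.Agent.Helper22.BU

/-- Let `n ≥ 3`. (1) The complex of a toric manifold obtained by blowing up a fixed point of a toric
manifold `X` and then a fixed point of the result is rigid if and only if `X` is projective space.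
(2) If no vertex of the complex of `X` has degree `n` and the blow-up of `X` at a fixed point has a
rigid complex, then the automorphism group of the complex of `X` is transitive on the facets. -/
theorem result (n : ℕ) (hn : 3 ≤ n) :
    (∀ (m : ℕ) (X : Fan n m) (τ : Finset (Fin m)) (σ : Finset (Fin (m + 1))),
      IsFacet n X.faces τ → IsFacet n (stack X.faces τ) σ →
      (∃ Z : Fan n (m + 1 + 1), Z.faces = stack (stack X.faces τ) σ) ∧
      (Rigid (stack (stack X.faces τ) σ) ↔ m = n + 1)) ∧
    (∀ (m : ℕ) (X : Fan n m), (∀ v, deg X.faces v ≠ n) → ∀ τ τ' : Finset (Fin m),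
      IsFacet n X.faces τ → IsFacet n X.faces τ' → Rigid (stack X.faces τ) →
      ∃ φ : Fin m ≃ Fin m, (∀ σ : Finset (Fin m), σ ∈ X.faces ↔ σ.map φ.toEmbedding ∈ X.faces) ∧
        τ'.map φ.toEmbedding = τ) :=
  ⟨(main n hn).1, (main n hn).2.1⟩

/-- Not part of `result`: for `n ≥ 3` and every `r ≥ 4` there is a toric manifold of dimension `n`
whose complex has `n + r` vertices and is not rigid. -/
theorem exists_not_rigid (n : ℕ) (hn : 3 ≤ n) (r : ℕ) (hr : 4 ≤ r) :
    ∃ Z : Fan n (n + r), ¬ Rigid Z.faces := by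
  obtain ⟨-, -, h3⟩ := main n hn
  by_contra h
  have h4 : ∀ Z : Fan n (n + r), Rigid Z.faces := fun Z => by
    by_contra hZ
    exact h ⟨Z, hZ⟩
  have h5 := (h3 r (by omega)).mp h4
  omega

end Pool.Agent.Results.MP_6ffec3_gt.PointBlowUps
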