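import Pool.Agent.Helper22.FL.Rig

/-!
# Flag complexes of toric manifolds that are not rigid

See `Pool/Agent/Helper21/ToricDefs.lean` for `Fan`, `GradedIso`, `ComplexIso`, `Rigid` and
`Pool/Agent/Helper22/FL/Rig.lean` for `Flag`.
-/

namespace Pool.Agent.Results.MP_6ffec3_gt.ProductsAndFlags

open Pool.Agent.Helper21.Toric Pool.Agent.Helper22.FL

/-- For all `n ≥ 3` and `m ≥ 2n + 6` there are two toric manifolds of dimension `n` whose complexes
are flag, have `m` vertices and are not isomorphic, and whose cohomology rings are isomorphic; so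
neither complex is rigid. -/
theorem result (n m : ℕ) (hn : 3 ≤ n) (hm : 2 * n + 6 ≤ m) :
    ∃ X Y : Fan n m,
      Flag X.faces ∧ Flag Y.faces ∧ GradedIso X Y ∧ ¬ ComplexIso X.faces Y.faces ∧
      ¬ Rigid X.faces ∧ ¬ Rigid Y.faces := by
  obtain ⟨X, Y, h1, h2, h3, h4⟩ := exists_flag n hn m hm
  refine ⟨X, Y, h1, h2, h3, h4, not_rigid_of_pair h3 h4, not_rigid_of_pair (gradedIso_symm h3) ?_⟩
  exact fun h => h4 h.symm

end Pool.Agent.Results.MP_6ffec3_gt.ProductsAndFlags
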