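import Pool.Agent.Helper22.FL.Ana

/-!
# Random blow-ups of toric manifolds have non-rigid complexes

See `Pool/Agent/Helper21/ToricDefs.lean` for `Fan` and `Rigid`,
`Pool/Agent/Helper22/BU/Defs.lean` for `old`, `Pool/Agent/Helper22/FL/Stel.lean` for `stel` and
`Pool/Agent/Helper22/FL/Prob.lean` for `centres` and `probRigid`.
-/

namespace Pool.Agent.Results.MP_6ffec3_gt.RandomBlowUps

open Pool.Agent.Helper21.Toric Pool.Agent.Helper22.FL

/-- Let `n ≥ 3`. The stellar subdivision of the complex of a toric manifold `X` of dimension `n` at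
a face `α` with at least two vertices is the complex of a toric manifold `Y`, namely of the blow-up
of `X` along the orbit closure of `α` (the new ray is the sum of the rays in `α`). Start with the complex of any toric manifold of dimension `n` and subdivide again and
again, choosing each time uniformly among the faces with at least two vertices: after `N ≥ 2` steps
the complex is rigid with probability at most `C (log N) ^ 3 / N ^ 2`, and the sum over all `N` of
these probabilities, i.e. the expected number of rigid complexes in the infinite random sequence,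
is at most `C`, where `C` depends on `n` only. -/
theorem result (n : ℕ) (hn : 3 ≤ n) :
    (∀ (m : ℕ) (X : Fan n m), ∀ α ∈ centres X.faces, ∃ Y : Fan n (m + 1),
      Y.faces = stel X.faces α ∧ (∀ i : Fin m, Y.ray i.castSucc = X.ray i) ∧
      Y.ray (Fin.last m) = ∑ i ∈ α, X.ray i) ∧
    (∃ C : ℝ, ∀ (m : ℕ) (X : Fan n m),
      (∀ N : ℕ, 2 ≤ N → probRigid N m X.faces ≤ C * Real.log N ^ 3 / N ^ 2) ∧
      Summable (fun N : ℕ => probRigid N m X.faces) ∧
      ∑' N : ℕ, probRigid N m X.faces ≤ C) := by
  refine ⟨fun m X α hα => ?_, prob_sum hn⟩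
  rw [mem_centres] at hα
  refine ⟨Stel X α hα.1 hα.2, rfl, fun i => ?_, ?_⟩
  · rw [Stel_ray, Pool.Agent.Helper22.BU.bray_cast]
  · rw [Stel_ray, Pool.Agent.Helper22.BU.bray_last]

end Pool.Agent.Results.MP_6ffec3_gt.RandomBlowUps
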